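import Pool.Agent.Y577.KD.Step

set_option autoImplicit false
set_option linter.unusedSectionVars false
set_option linter.unusedVariables false

/-! The step of the adversary strategy for a pair of a vertex and a hub. -/

namespace Pool.Agent.Y577.KD

variable {V : Type} [DecidableEq V]
variable {C : Finset V} {U Y U' Y' : SimpleGraph V} {a b : V}

theorem mix_U (ha : a ∉ C) (hb : b ∈ C) (hU : Del U U' a b) {x z : V} (hx : x ∉ C)
    (h : x ≠ a ∨ z ∉ C) : U'.Adj x z ↔ U.Adj x z := by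
  rw [hU]
  refine ⟨fun h => h.1, fun h1 => ⟨h1, ?_⟩⟩
  rintro (⟨h2, h3⟩ | ⟨h2, h3⟩)
  · rcases h with h | h
    · exact h h2
    · exact h (h3 ▸ hb)
  · exact hx (h2 ▸ hb)

theorem mix_Y (ha : a ∉ C) (hb : b ∈ C) (hY : Ins Y Y' a b) {x z : V} (hx : x ∉ C)
    (h : x ≠ a ∨ z ∉ C) : Y'.Adj x z ↔ Y.Adj x z := by
  rw [hY]
  refine ⟨fun h1 => ?_, fun h1 => Or.inl h1⟩
  rcases h1 with h1 | ⟨h2, h3⟩ | ⟨h2, h3⟩
  · exact h1
  · rcases h with h | h
    · exact absurd h2 h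
    · exact absurd (h3 ▸ hb) h
  · exact absurd (h2 ▸ hb) hx

theorem mix_ex (ha : a ∉ C) (hb : b ∈ C) (hU : Del U U' a b) {x : V} (hx : x ∉ C) :
    ex C U' x ↔ ex C U x := by
  constructor
  · intro h z hz h1
    exact h z hz ((mix_U ha hb hU hx (Or.inr hz)).2 h1)
  · intro h z hz h1
    exact h z hz ((mix_U ha hb hU hx (Or.inr hz)).1 h1)

theorem mix_hu (ha : a ∉ C) (hb : b ∈ C) (hU : Del U U' a b) {x : V} (hx : x ∉ C) (hxa : x ≠ a) :
    hu C U' x ↔ hu C U x := by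
  constructor
  · rintro ⟨c, hc, h⟩
    exact ⟨c, hc, (mix_U ha hb hU hx (Or.inl hxa)).1 h⟩
  · rintro ⟨c, hc, h⟩
    exact ⟨c, hc, (mix_U ha hb hU hx (Or.inl hxa)).2 h⟩

theorem mix_hn (ha : a ∉ C) (hb : b ∈ C) (hU : Del U U' a b) {x : V} (hx : x ∉ C) (hxa : x ≠ a) :
    hn C U' Y x ↔ hn C U Y x := by
  constructor
  · rintro ⟨c, hc, h, h2⟩
    exact ⟨c, hc, fun h3 => h ((mix_U ha hb hU hx (Or.inl hxa)).2 h3), h2⟩
  · rintro ⟨c, hc, h, h2⟩
    exact ⟨c, hc, fun h3 => h ((mix_U ha hb hU hx (Or.inl hxa)).1 h3), h2⟩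

/-- case 3, positive answer with the same leaves -/
theorem mix_yes {L : Set V} (hd : Core C U Y) (hL : Leaf C U Y L) (hab : U.Adj a b)
    (ha : a ∉ C) (hb : b ∈ C) (hU : Del U U' a b) (hY : Ins Y Y' a b)
    (h : a ∉ L ∨ hu C U' a) : Leaf C U' Y' L := by
  have hn' := hn_yes hd hab hU hY
  have hua : hu C U a := ⟨b, hb, hab⟩
  refine ⟨?_, ?_, ?_⟩
  · intro x hx
    obtain ⟨h4, h5, h6, h7, z, h8, h9, h10, h11, h12⟩ := hL.l1 x hx
    refine ⟨h4, by rwa [hn'], hU.ex h6, ?_, z, h8, h9, by rwa [hn'],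
      (mix_Y ha hb hY h4 (Or.inr h8)).2 h11, ?_⟩
    · by_cases hxa : x = a
      · subst hxa
        rcases h with h | h
        · exact absurd hx h
        · exact h
      · exact (mix_hu ha hb hU h4 hxa).2 h7
    · intro w hw hw2 hw3
      rw [hn'] at hw2
      exact h12 w hw hw2 ((mix_Y ha hb hY h4 (Or.inr hw)).1 hw3)
  · intro x z hx hz h4 h5 h6 h7 h8
    rw [hn'] at h4 h5
    exact hL.l2 x z hx hz h4 h5 h6 h7 ((mix_Y ha hb hY hx (Or.inr hz)).1 h8)
  · intro x hx h4 h5 h6 h7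
    rw [hn'] at h4
    rw [mix_ex ha hb hU hx] at h6
    have h8 : hu C U x := by
      by_contra h8
      exact hU.hu h8 h7
    obtain ⟨z, hz, h9⟩ := hL.l3 x hx h4 h5 h6 h8
    exact ⟨z, hz, (mix_Y ha hb hY hx (Or.inr (hL.l1 z hz).1)).2 h9⟩

/-- case 3, negative answer: the leaf `a` is dropped -/
theorem mix_no {L : Set V} (hd : Core C U Y) (hL : Leaf C U Y L) (hab : U.Adj a b)
    (ha : a ∉ C) (hb : b ∈ C) (hU : Del U U' a b) (haL : a ∈ L) (hua : ¬ hu C U' a)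
    (hP : ∀ z, z ∉ C → ¬ hn C U Y z → Y.Adj a z → ex C U z → hu C U z →
      ∃ w ∈ L, w ≠ a ∧ Y.Adj z w) :
    Core C U' Y ∧ Leaf C U' Y (L \ {a}) := by
  obtain ⟨-, hna, hexa, -, za, g1, g2, g3, g4, g5⟩ := hL.l1 a haL
  have hna' : hn C U' Y a := by
    refine ⟨b, hb, fun h => ?_, hd.disj a b hab⟩
    exact ((hU a b).1 h).2 (Or.inl ⟨rfl, rfl⟩)
  have hnn : ∀ x, x ∉ C → ¬ hn C U' Y x → ¬ hn C U Y x := by
    intro x hx h1
    have hxa : x ≠ a := fun h => h1 (h ▸ hna')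
    rwa [mix_hn ha hb hU hx hxa] at h1
  constructor
  · refine ⟨fun p q h => hd.disj p q ((hU p q).1 h).1, ?_, ?_, ?_, ?_, ?_⟩
    · intro c hc c' hc' hne
      rcases hd.hub c hc c' hc' hne with h | h
      · refine Or.inl ((hU c c').2 ⟨h, ?_⟩)
        rintro (⟨h1, -⟩ | ⟨-, h1⟩)
        · exact ha (h1 ▸ hc)
        · exact ha (h1 ▸ hc')
      · exact Or.inr h
    · intro x hx h1
      by_cases hxa : x = a
      · subst hxa
        exact ⟨hU.ex hexa, hua⟩
      · rw [mix_hn ha hb hU hx hxa] at h1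
        obtain ⟨h2, h3⟩ := hd.drop x hx h1
        exact ⟨hU.ex h2, hU.hu h3⟩
    · intro W hW hex
      by_cases h1 : ∃ x ∈ W, hn C U Y x
      · obtain ⟨x, hxW, h2, h3⟩ := hd.peel W hW h1
        refine ⟨x, hxW, ?_, h3⟩
        have hxa : x ≠ a := fun h => hna (h ▸ h2)
        exact (mix_hn ha hb hU (hW x hxW) hxa).2 h2
      · push Not at h1
        obtain ⟨x, hxW, h2⟩ := hex
        have hxa : x = a := by
          by_contra hxa
          exact h1 x hxW ((mix_hn ha hb hU (hW x hxW) hxa).1 h2)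
        subst hxa
        refine ⟨x, hxW, h2, fun p hp q hq h4 h5 => ?_⟩
        rw [g5 p (hW p hp) (h1 p hp) h4, g5 q (hW q hq) (h1 q hq) h5]
    · intro x hx c hc c' hc' h1 h2 h3 h4
      by_cases hxa : x = a
      · subst hxa
        have h5 : ∀ d ∈ C, ¬ U'.Adj x d → ¬ Y.Adj x d → d = b := by
          intro d hd' h6 h7
          by_contra hdb
          refine hna ⟨d, hd', fun h8 => h6 ((hU x d).2 ⟨h8, ?_⟩), h7⟩
          rintro (⟨-, h9⟩ | ⟨h9, -⟩)
          · exact hdb h9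
          · exact ha (h9 ▸ hb)
        rw [h5 c hc h1 h2, h5 c' hc' h3 h4]
      · rw [mix_U ha hb hU hx (Or.inl hxa)] at h1 h3
        exact hd.one x hx c hc c' hc' h1 h2 h3 h4
    · intro W hW h1
      by_cases haW : a ∈ W
      · refine ⟨a, haW, za, ?_, g1, g4⟩
        intro hzW
        have h2 := (h1 za hzW).2
        have hza : za ≠ a := fun h => g2 (h ▸ haL)
        rw [mix_hn ha hb hU g1 hza] at h2
        exact g3 h2
      · refine hd.leave W hW (fun x hx => ?_)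
        have hxa : x ≠ a := fun h => haW (h ▸ hx)
        obtain ⟨h2, h3⟩ := h1 x hx
        exact ⟨h2, (mix_hn ha hb hU h2 hxa).1 h3⟩
  · refine ⟨?_, ?_, ?_⟩
    · rintro x ⟨hx, hxa⟩
      rw [Set.mem_singleton_iff] at hxa
      obtain ⟨h4, h5, h6, h7, z, h8, h9, h10, h11, h12⟩ := hL.l1 x hx
      have hza : z ≠ a := fun h => h9 (h ▸ haL)
      refine ⟨h4, by rwa [mix_hn ha hb hU h4 hxa], hU.ex h6, (mix_hu ha hb hU h4 hxa).2 h7, z, h8,
        fun h => h9 h.1, by rwa [mix_hn ha hb hU h8 hza], h11, ?_⟩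
      intro w hw hw2 hw3
      exact h12 w hw (hnn w hw hw2) hw3
    · intro x z hx hz h4 h5 h6 h7 h8
      have hxa : x ≠ a := fun h => h4 (h ▸ hna')
      have hza : z ≠ a := fun h => h5 (h ▸ hna')
      exact hL.l2 x z hx hz (hnn x hx h4) (hnn z hz h5) (fun h => h6 ⟨h, hxa⟩)
        (fun h => h7 ⟨h, hza⟩) h8
    · intro x hx h4 h5 h6 h7
      have hxa : x ≠ a := fun h => h4 (h ▸ hna')
      have hxL : x ∉ L := fun h => h5 ⟨h, hxa⟩
      rw [mix_ex ha hb hU hx] at h6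
      rw [mix_hu ha hb hU hx hxa] at h7
      obtain ⟨w, hw, h8⟩ := hL.l3 x hx (hnn x hx h4) hxL h6 h7
      by_cases hwa : w = a
      · subst hwa
        obtain ⟨w', hw', h9, h10⟩ := hP x hx (hnn x hx h4) h8.symm h6 h7
        exact ⟨w', ⟨hw', h9⟩, h10⟩
      · exact ⟨w, ⟨hw, hwa⟩, h8⟩

/-- case 3, positive answer: the leaf `a` and its partner are exchanged -/
theorem mix_swap {L : Set V} {z : V} (hd : Core C U Y) (hL : Leaf C U Y L) (hab : U.Adj a b)
    (ha : a ∉ C) (hb : b ∈ C) (hU : Del U U' a b) (hY : Ins Y Y' a b) (haL : a ∈ L)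
    (hua : ¬ hu C U' a) (hz : z ∉ C) (hnz : ¬ hn C U Y z) (haz : Y.Adj a z) (hez : ex C U z)
    (huz : hu C U z) (hP : ∀ w ∈ L, Y.Adj z w → w = a) :
    Leaf C U' Y' (insert z (L \ {a})) := by
  have hn' := hn_yes hd hab hU hY
  obtain ⟨-, hna, hexa, -, za, g1, g2, g3, g4, g5⟩ := hL.l1 a haL
  have hzza : z = za := g5 z hz hnz haz
  subst hzza
  have hza : z ≠ a := fun h => g2 (h ▸ haL)
  refine ⟨?_, ?_, ?_⟩
  · rintro x (rfl | ⟨hx, hxa⟩)
    · refine ⟨hz, by rwa [hn'], hU.ex hez, (mix_hu ha hb hU hz hza).2 huz, a, ha, ?_, by rwa [hn'],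
        (mix_Y ha hb hY hz (Or.inl hza)).2 haz.symm, ?_⟩
      · rintro (h | h)
        · exact hza h.symm
        · exact h.2 rfl
      · intro w hw hw2 hw3
        rw [hn'] at hw2
        rw [mix_Y ha hb hY hz (Or.inl hza)] at hw3
        by_cases hwL : w ∈ L
        · exact hP w hwL hw3
        · exact absurd hw3 (hL.l2 _ w hz hw hnz hw2 g2 hwL)
    · rw [Set.mem_singleton_iff] at hxa
      obtain ⟨h4, h5, h6, h7, y, h8, h9, h10, h11, h12⟩ := hL.l1 x hx
      refine ⟨h4, by rwa [hn'], hU.ex h6, (mix_hu ha hb hU h4 hxa).2 h7, y, h8, ?_, by rwa [hn'],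
        (mix_Y ha hb hY h4 (Or.inl hxa)).2 h11, ?_⟩
      · rintro (h | h)
        · rw [h] at h11
          exact hxa (hP x hx h11.symm)
        · exact h9 h.1
      · intro w hw hw2 hw3
        rw [hn'] at hw2
        exact h12 w hw hw2 ((mix_Y ha hb hY h4 (Or.inl hxa)).1 hw3)
  · intro x w hx hw h4 h5 h6 h7 h8
    rw [hn'] at h4 h5
    rw [mix_Y ha hb hY hx (Or.inr hw)] at h8
    have hxz : x ≠ z := fun h => h6 (Or.inl h)
    have hwz : w ≠ z := fun h => h7 (Or.inl h)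
    by_cases hxa : x = a
    · subst hxa
      exact hwz (g5 w hw h5 h8)
    · by_cases hwa : w = a
      · subst hwa
        exact hxz (g5 x hx h4 h8.symm)
      · exact hL.l2 x w hx hw h4 h5 (fun h => h6 (Or.inr ⟨h, hxa⟩))
          (fun h => h7 (Or.inr ⟨h, hwa⟩)) h8
  · intro x hx h4 h5 h6 h7
    rw [hn'] at h4
    have hxz : x ≠ z := fun h => h5 (Or.inl h)
    have hxa : x ≠ a := fun h => hua (h ▸ h7)
    have hxL : x ∉ L := fun h => h5 (Or.inr ⟨h, hxa⟩)
    rw [mix_ex ha hb hU hx] at h6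
    rw [mix_hu ha hb hU hx hxa] at h7
    obtain ⟨w, hw, h8⟩ := hL.l3 x hx h4 hxL h6 h7
    by_cases hwa : w = a
    · subst hwa
      exact absurd (g5 x hx h4 h8.symm) hxz
    · exact ⟨w, Or.inr ⟨hw, hwa⟩, (mix_Y ha hb hY hx (Or.inl hxa)).2 h8⟩

/-- case 3: a pair of a vertex and a hub -/
theorem step_mix (h : Inv C U Y) (hab : U.Adj a b) (ha : a ∉ C) (hb : b ∈ C)
    (hU : Del U U' a b) (hY : Ins Y Y' a b) (hne : ∃ p q, U'.Adj p q) :
    Inv C U' Y ∨ Inv C U' Y' := by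
  classical
  obtain ⟨hd, h⟩ := h
  rcases h with ⟨hR, L, hL⟩ | h2
  swap
  · exact absurd ⟨a, ha, b, hab⟩ h2.all
  have hua : hu C U a := ⟨b, hb, hab⟩
  have hna : ¬ hn C U Y a := fun h => (hd.drop a ha h).2 hua
  have hn' := hn_yes hd hab hU hY
  by_cases hR' : Rem C U'
  · by_cases h1 : a ∉ L ∨ hu C U' a
    · right
      exact ⟨core_yes hd hab hU hY, Or.inl ⟨hR', L, mix_yes hd hL hab ha hb hU hY h1⟩⟩
    · push Not at h1
      obtain ⟨haL, hua'⟩ := h1
      by_cases hP : ∀ z, z ∉ C → ¬ hn C U Y z → Y.Adj a z → ex C U z → hu C U z →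
          ∃ w ∈ L, w ≠ a ∧ Y.Adj z w
      · left
        obtain ⟨h3, h4⟩ := mix_no hd hL hab ha hb hU haL hua' hP
        exact ⟨h3, Or.inl ⟨hR', _, h4⟩⟩
      · right
        push Not at hP
        obtain ⟨z, h3, h4, h5, h6, h7, h8⟩ := hP
        refine ⟨core_yes hd hab hU hY, Or.inl ⟨hR', _,
          mix_swap hd hL hab ha hb hU hY haL hua' h3 h4 h5 h6 h7 ?_⟩⟩
        intro w hw hzw
        by_contra hwa
        exact h8 w hw hwa hzw
  · right
    refine ⟨core_yes hd hab hU hY, Or.inr ⟨hR', ?_, ?_⟩⟩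
    · have hhu : ∀ x, x ∉ C → x ≠ a → ¬ hu C U x := by
        rintro x hx hxa ⟨c, hc, h3⟩
        exact hR' ⟨x, hx, c, (mix_U ha hb hU hx (Or.inl hxa)).2 h3⟩
      have hex : ∀ x, x ∉ C → ex C U x := by
        intro x hx z hz h3
        exact hR' ⟨x, hx, z, (mix_U ha hb hU hx (Or.inr hz)).2 h3⟩
      have hLa : ∀ x ∈ L, x = a := by
        intro x hx
        obtain ⟨h4, -, -, h7, -⟩ := hL.l1 x hx
        by_contra hxa
        exact hhu x h4 hxa h7
      have haL : a ∈ L := by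
        by_contra haL
        obtain ⟨z, hz, -⟩ := hL.l3 a ha hna haL (hex a ha) hua
        exact haL (hLa z hz ▸ hz)
      obtain ⟨-, -, -, -, z, g1, g2, g3, g4, g5⟩ := hL.l1 a haL
      refine ⟨a, z, ha, g1, by rwa [hn'], by rwa [hn'],
        (mix_Y ha hb hY ha (Or.inr g1)).2 g4, ?_⟩
      intro p q hp hq h4 h5 h6
      rw [hn'] at h4 h5
      rw [mix_Y ha hb hY hp (Or.inr hq)] at h6
      by_cases hpL : p ∈ L
      · left
        have hpa := hLa p hpL
        subst hpa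
        exact ⟨rfl, g5 q hq h5 h6⟩
      · by_cases hqL : q ∈ L
        · right
          have hqa := hLa q hqL
          subst hqa
          exact ⟨g5 p hp h4 h6.symm, rfl⟩
        · exact absurd h6 (hL.l2 p q hp hq h4 h5 hpL hqL)
    · obtain ⟨p, q, hpq⟩ := hne
      refine ⟨p, ?_, q, ?_, hpq⟩
      · by_contra hp
        exact hR' ⟨p, hp, q, hpq⟩
      · by_contra hq
        exact hR' ⟨q, hq, p, hpq.symm⟩

/-- **The step of the adversary strategy.** -/
theorem step (h : Inv C U Y) (hab : U.Adj a b) (hU : Del U U' a b) (hY : Ins Y Y' a b)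
    (hne : ∃ p q, U'.Adj p q) : Inv C U' Y ∨ Inv C U' Y' := by
  by_cases ha : a ∈ C
  · by_cases hb : b ∈ C
    · exact Or.inr (step_hub h hab ha hb hU hY hne)
    · exact step_mix h hab.symm hb ha hU.symm hY.symm hne
  · by_cases hb : b ∈ C
    · exact step_mix h hab ha hb hU hY hne
    · exact step_out h hab ha hb hU hY hne

end Pool.Agent.Y577.KD
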