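import Mathlib

set_option autoImplicit false
set_option linter.unusedSectionVars false

/-!
The invariant of an adversary strategy: `C` is a set of hubs, `U` the graph of the pairs that have
not been queried, `Y` the graph of the pairs that were answered with yes.
-/

namespace Pool.Agent.Y577.KD

variable {V : Type} [DecidableEq V]

/-- some pair of `x` and a hub has not been queried -/
def hu (C : Finset V) (U : SimpleGraph V) (x : V) : Prop := ∃ c ∈ C, U.Adj x c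

/-- some pair of `x` and a hub was answered with no: the vertex `x` is dropped -/
def hn (C : Finset V) (U Y : SimpleGraph V) (x : V) : Prop := ∃ c ∈ C, ¬ U.Adj x c ∧ ¬ Y.Adj x c

/-- all pairs of `x` and vertices outside `C` have been queried -/
def ex (C : Finset V) (U : SimpleGraph V) (x : V) : Prop := ∀ z, z ∉ C → ¬ U.Adj x z

/-- the basic part of the invariant -/
structure Core (C : Finset V) (U Y : SimpleGraph V) : Prop where
  disj : ∀ a b, U.Adj a b → ¬ Y.Adj a b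
  hub : ∀ c ∈ C, ∀ c' ∈ C, c ≠ c' → U.Adj c c' ∨ Y.Adj c c'
  drop : ∀ x, x ∉ C → hn C U Y x → ex C U x ∧ ¬ hu C U x
  peel : ∀ W : Finset V, (∀ x ∈ W, x ∉ C) → (∃ x ∈ W, hn C U Y x) →
    ∃ x ∈ W, hn C U Y x ∧ ∀ a ∈ W, ∀ b ∈ W, Y.Adj x a → Y.Adj x b → a = b
  one : ∀ x, x ∉ C → ∀ c ∈ C, ∀ c' ∈ C, ¬ U.Adj x c → ¬ Y.Adj x c → ¬ U.Adj x c' →
    ¬ Y.Adj x c' → c = c'
  leave : ∀ W : Finset V, W.Nonempty → (∀ x ∈ W, x ∉ C ∧ hn C U Y x) →
    ∃ x ∈ W, ∃ z, z ∉ W ∧ z ∉ C ∧ Y.Adj x z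

/-- some pair that is not a pair of hubs has not been queried -/
def Rem (C : Finset V) (U : SimpleGraph V) : Prop := ∃ x, x ∉ C ∧ ∃ z, U.Adj x z

/-- the structure of the answers outside `C`: `L` is the set of the leaves -/
structure Leaf (C : Finset V) (U Y : SimpleGraph V) (L : Set V) : Prop where
  l1 : ∀ x ∈ L, x ∉ C ∧ ¬ hn C U Y x ∧ ex C U x ∧ hu C U x ∧
    ∃ z, z ∉ C ∧ z ∉ L ∧ ¬ hn C U Y z ∧ Y.Adj x z ∧
      ∀ w, w ∉ C → ¬ hn C U Y w → Y.Adj x w → w = z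
  l2 : ∀ x z, x ∉ C → z ∉ C → ¬ hn C U Y x → ¬ hn C U Y z → x ∉ L → z ∉ L → ¬ Y.Adj x z
  l3 : ∀ x, x ∉ C → ¬ hn C U Y x → x ∉ L → ex C U x → hu C U x → ∃ z ∈ L, Y.Adj x z

/-- the second phase: only pairs of hubs have not been queried -/
structure Two (C : Finset V) (U Y : SimpleGraph V) : Prop where
  all : ¬ Rem C U
  edge : ∃ x z, x ∉ C ∧ z ∉ C ∧ ¬ hn C U Y x ∧ ¬ hn C U Y z ∧ Y.Adj x z ∧
    ∀ a b, a ∉ C → b ∉ C → ¬ hn C U Y a → ¬ hn C U Y b → Y.Adj a b →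
      (a = x ∧ b = z) ∨ (a = z ∧ b = x)
  some : ∃ c ∈ C, ∃ c' ∈ C, U.Adj c c'

/-- the invariant -/
def Inv (C : Finset V) (U Y : SimpleGraph V) : Prop :=
  Core C U Y ∧ ((Rem C U ∧ ∃ L, Leaf C U Y L) ∨ Two C U Y)

section step

variable {C : Finset V} {U Y U' Y' : SimpleGraph V} {a b : V}

/-- `U'` is obtained from `U` by deleting the edge `a b` -/
def Del (U U' : SimpleGraph V) (a b : V) : Prop :=
  ∀ p q, U'.Adj p q ↔ U.Adj p q ∧ ¬ ((p = a ∧ q = b) ∨ (p = b ∧ q = a))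

/-- `Y'` is obtained from `Y` by adding the edge `a b` -/
def Ins (Y Y' : SimpleGraph V) (a b : V) : Prop :=
  ∀ p q, Y'.Adj p q ↔ Y.Adj p q ∨ ((p = a ∧ q = b) ∨ (p = b ∧ q = a))

theorem Del.symm (h : Del U U' a b) : Del U U' b a := by
  intro p q
  rw [h p q, or_comm]

theorem Ins.symm (h : Ins Y Y' a b) : Ins Y Y' b a := by
  intro p q
  rw [h p q, or_comm (a := p = a ∧ q = b)]

theorem Del.ex (h : Del U U' a b) {x : V} (hx : ex C U x) : ex C U' x :=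
  fun z hz h1 => hx z hz ((h x z).1 h1).1

theorem Del.hu (h : Del U U' a b) {x : V} (hx : ¬ hu C U x) : ¬ hu C U' x :=
  fun ⟨c, hc, h1⟩ => hx ⟨c, hc, ((h x c).1 h1).1⟩

theorem Del.ex_iff (h : Del U U' a b) {x : V} (h1 : x ≠ a) (h2 : x ≠ b) :
    Pool.Agent.Y577.KD.ex C U' x ↔ Pool.Agent.Y577.KD.ex C U x := by
  refine ⟨fun h3 z hz h4 => h3 z hz ((h x z).2 ⟨h4, ?_⟩), h.ex⟩
  rintro (⟨h5, -⟩ | ⟨h5, -⟩)
  · exact h1 h5
  · exact h2 h5

/-- the exceptional vertices in the case of a positive answer -/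
theorem hn_yes (hd : Core C U Y) (hab : U.Adj a b) (hU : Del U U' a b) (hY : Ins Y Y' a b)
    (x : V) : hn C U' Y' x ↔ hn C U Y x := by
  constructor
  · rintro ⟨c, hc, h1, h2⟩
    rw [hY] at h2
    push Not at h2
    refine ⟨c, hc, fun h3 => h1 ((hU x c).2 ⟨h3, ?_⟩), h2.1⟩
    rintro (h4 | h4)
    · exact h2.2.1 h4.1 h4.2
    · exact h2.2.2 h4.1 h4.2
  · rintro ⟨c, hc, h1, h2⟩
    refine ⟨c, hc, fun h3 => h1 ((hU x c).1 h3).1, fun h3 => ?_⟩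
    rcases (hY x c).1 h3 with h4 | ⟨rfl, rfl⟩ | ⟨rfl, rfl⟩
    · exact h2 h4
    · exact h1 hab
    · exact h1 hab.symm

theorem pair_yes (hU : Del U U' a b) (hY : Ins Y Y' a b) {x c : V} (h1 : ¬ U'.Adj x c)
    (h2 : ¬ Y'.Adj x c) : ¬ U.Adj x c ∧ ¬ Y.Adj x c := by
  rw [hY] at h2
  push Not at h2
  refine ⟨fun h3 => h1 ((hU x c).2 ⟨h3, ?_⟩), h2.1⟩
  rintro (h4 | h4)
  · exact h2.2.1 h4.1 h4.2
  · exact h2.2.2 h4.1 h4.2

theorem core_yes (hd : Core C U Y) (hab : U.Adj a b) (hU : Del U U' a b) (hY : Ins Y Y' a b) :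
    Core C U' Y' := by
  refine ⟨?_, ?_, ?_, ?_, ?_, ?_⟩
  · intro p q h1 h2
    rw [hU] at h1
    rcases (hY p q).1 h2 with h3 | h3
    · exact hd.disj p q h1.1 h3
    · exact h1.2 h3
  · intro c hc c' hc' hne
    by_cases h1 : (c = a ∧ c' = b) ∨ (c = b ∧ c' = a)
    · exact Or.inr ((hY c c').2 (Or.inr h1))
    · rcases hd.hub c hc c' hc' hne with h2 | h2
      · exact Or.inl ((hU c c').2 ⟨h2, h1⟩)
      · exact Or.inr ((hY c c').2 (Or.inl h2))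
  · intro x hx h1
    rw [hn_yes hd hab hU hY] at h1
    obtain ⟨h2, h3⟩ := hd.drop x hx h1
    exact ⟨hU.ex h2, hU.hu h3⟩
  · intro W hW hex
    simp only [hn_yes hd hab hU hY] at hex ⊢
    obtain ⟨x, hxW, h1, h2⟩ := hd.peel W hW hex
    obtain ⟨h3, -⟩ := hd.drop x (hW x hxW) h1
    have h4 : ∀ p ∈ W, Y'.Adj x p → Y.Adj x p := by
      intro p hp h5
      rcases (hY x p).1 h5 with h6 | ⟨rfl, rfl⟩ | ⟨rfl, rfl⟩
      · exact h6
      · exact absurd hab (h3 _ (hW _ hp))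
      · exact absurd hab.symm (h3 _ (hW _ hp))
    exact ⟨x, hxW, h1, fun p hp q hq h5 h6 => h2 p hp q hq (h4 p hp h5) (h4 q hq h6)⟩
  · intro x hx c hc c' hc' h1 h2 h3 h4
    obtain ⟨h5, h6⟩ := pair_yes hU hY h1 h2
    obtain ⟨h7, h8⟩ := pair_yes hU hY h3 h4
    exact hd.one x hx c hc c' hc' h5 h6 h7 h8
  · intro W hW h1
    simp only [hn_yes hd hab hU hY] at h1
    obtain ⟨x, hx, z, h2, h3, h4⟩ := hd.leave W hW h1
    exact ⟨x, hx, z, h2, h3, (hY x z).2 (Or.inl h4)⟩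

/-- case 1: a pair of hubs -/
theorem step_hub (h : Inv C U Y) (hab : U.Adj a b) (ha : a ∈ C) (hb : b ∈ C)
    (hU : Del U U' a b) (hY : Ins Y Y' a b) (hne : ∃ p q, U'.Adj p q) : Inv C U' Y' := by
  obtain ⟨hd, h⟩ := h
  have hn' := hn_yes hd hab hU hY
  have hUx : ∀ x, x ∉ C → ∀ z, U'.Adj x z ↔ U.Adj x z := by
    intro x hx z
    rw [hU]
    refine ⟨fun h => h.1, fun h => ⟨h, ?_⟩⟩
    rintro (⟨rfl, -⟩ | ⟨rfl, -⟩)
    · exact hx ha
    · exact hx hb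
  have hYx : ∀ x, x ∉ C → ∀ z, Y'.Adj x z ↔ Y.Adj x z := by
    intro x hx z
    rw [hY]
    refine ⟨fun h => ?_, fun h => Or.inl h⟩
    rcases h with h | ⟨rfl, -⟩ | ⟨rfl, -⟩
    · exact h
    · exact absurd ha hx
    · exact absurd hb hx
  have hexi : ∀ x, x ∉ C → (ex C U' x ↔ ex C U x) := by
    intro x hx
    unfold ex
    simp only [hUx x hx]
  have hhui : ∀ x, x ∉ C → (hu C U' x ↔ hu C U x) := by
    intro x hx
    unfold hu
    simp only [hUx x hx]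
  refine ⟨core_yes hd hab hU hY, ?_⟩
  rcases h with ⟨hR, L, hL⟩ | h2
  · left
    refine ⟨?_, L, ?_, ?_, ?_⟩
    · obtain ⟨x, hx, z, hz⟩ := hR
      exact ⟨x, hx, z, (hUx x hx z).2 hz⟩
    · intro x hx
      obtain ⟨h1, h3, h4, h5, z, h6, h7, h8, h9, h10⟩ := hL.l1 x hx
      refine ⟨h1, by rwa [hn'], (hexi x h1).2 h4, (hhui x h1).2 h5, z, h6, h7, by rwa [hn'],
        (hYx x h1 z).2 h9, fun w hw hw2 hw3 => h10 w hw ?_ ((hYx x h1 w).1 hw3)⟩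
      rwa [hn'] at hw2
    · intro x z hx hz h1 h2 h3 h4 h5
      rw [hn'] at h1 h2
      exact hL.l2 x z hx hz h1 h2 h3 h4 ((hYx x hx z).1 h5)
    · intro x hx h1 h2 h3 h4
      rw [hn'] at h1
      obtain ⟨z, hz, h5⟩ := hL.l3 x hx h1 h2 ((hexi x hx).1 h3) ((hhui x hx).1 h4)
      exact ⟨z, hz, (hYx x hx z).2 h5⟩
  · right
    refine ⟨?_, ?_, ?_⟩
    · rintro ⟨x, hx, z, hz⟩
      exact h2.all ⟨x, hx, z, (hUx x hx z).1 hz⟩
    · obtain ⟨x, z, h3, h4, h5, h6, h7, h8⟩ := h2.edge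
      refine ⟨x, z, h3, h4, by rwa [hn'], by rwa [hn'], (hYx x h3 z).2 h7, ?_⟩
      intro p q hp hq h9 h10 h11
      rw [hn'] at h9 h10
      exact h8 p q hp hq h9 h10 ((hYx p hp q).1 h11)
    · obtain ⟨p, q, hpq⟩ := hne
      have h3 : ∀ x, x ∉ C → ∀ z, ¬ U'.Adj x z := fun x hx z hz =>
        h2.all ⟨x, hx, z, (hUx x hx z).1 hz⟩
      refine ⟨p, ?_, q, ?_, hpq⟩
      · by_contra hp
        exact h3 p hp q hpq
      · by_contra hq
        exact h3 q hq p hpq.symm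

end step

end Pool.Agent.Y577.KD
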