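import Pool.Agent.Y577.KD.Hub
import Pool.Agent.H98R2.Ev.T3
import Pool.Agent.H98R2.Ev.T15

set_option autoImplicit false
set_option linter.unusedSectionVars false
set_option linter.unusedVariables false

/-! The adversary strategy defeats every decision tree. -/

namespace Pool.Agent.Y577.KD

open Finset Pool.Agent.H98R2.Ev

variable {V : Type} [DecidableEq V]
variable {C : Finset V} {U Y : SimpleGraph V}

open Classical in
theorem count_one {W : Finset V} {x c z : V} (hc : c ∈ C) (hxc : ¬ Y.Adj x c)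
    (h : ∀ w ∈ W, w ∉ C → Y.Adj x w → w = z) : (W.filter (fun w => Y.Adj x w)).card ≤ C.card := by
  have h1 : W.filter (fun w => Y.Adj x w) ⊆ insert z (C.erase c) := by
    intro w hw
    rw [mem_filter] at hw
    rw [mem_insert, mem_erase]
    by_cases hwC : w ∈ C
    · exact Or.inr ⟨fun h2 => hxc (h2 ▸ hw.2), hwC⟩
    · exact Or.inl (h w hw.1 hwC hw.2)
  refine (card_le_card h1).trans ((card_insert_le _ _).trans ?_)
  rw [card_erase_of_mem hc]
  have := card_pos.2 ⟨c, hc⟩
  omega

open Classical in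
theorem count_zero {W : Finset V} {x : V}
    (h : ∀ w ∈ W, w ∉ C → ¬ Y.Adj x w) : (W.filter (fun w => Y.Adj x w)).card ≤ C.card := by
  refine card_le_card fun w hw => ?_
  rw [mem_filter] at hw
  by_contra hwC
  exact h w hw.1 hwC hw.2

open Classical in
theorem Inv.degen (h : Inv C U Y) (W : Finset V) (hW : W.Nonempty) :
    ∃ v ∈ W, (W.filter (fun w => Y.Adj v w)).card ≤ C.card := by
  obtain ⟨hd, h⟩ := h
  by_cases hWC : ∀ w ∈ W, w ∈ C
  · obtain ⟨v, hv⟩ := hW
    exact ⟨v, hv, count_zero (fun w hw hw2 => absurd (hWC w hw) hw2)⟩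
  push Not at hWC
  obtain ⟨v, hvW, hvC⟩ := hWC
  by_cases hdr : ∃ x ∈ W, x ∉ C ∧ hn C U Y x
  · obtain ⟨x, hxW, hxC, hx⟩ := hdr
    obtain ⟨y, hy, ⟨c, hc, -, hyc⟩, h2⟩ := hd.peel (W.filter (fun w => w ∉ C))
      (fun w hw => (mem_filter.1 hw).2) ⟨x, mem_filter.2 ⟨hxW, hxC⟩, hx⟩
    rw [mem_filter] at hy
    refine ⟨y, hy.1, ?_⟩
    by_cases h3 : ∃ z ∈ W, z ∉ C ∧ Y.Adj y z
    · obtain ⟨z, hzW, hzC, hz⟩ := h3
      exact count_one (z := z) hc hyc (fun w hw hw2 hw3 =>
        h2 w (mem_filter.2 ⟨hw, hw2⟩) z (mem_filter.2 ⟨hzW, hzC⟩) hw3 hz)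
    · push Not at h3
      exact count_zero h3
  · push Not at hdr
    rcases h with ⟨hR, L, hL⟩ | h2
    · by_cases hl : ∃ x ∈ W, x ∈ L
      · obtain ⟨x, hxW, hxL⟩ := hl
        obtain ⟨h4, h5, h6, ⟨c, hc, hxc⟩, z, h8, h9, h10, h11, h12⟩ := hL.l1 x hxL
        exact ⟨x, hxW, count_one (z := z) hc (hd.disj x c hxc)
          (fun w hw hw2 hw3 => h12 w hw2 (hdr w hw hw2) hw3)⟩
      · push Not at hl
        exact ⟨v, hvW, count_zero (fun w hw hw2 => hL.l2 v w hvC hw2 (hdr v hvW hvC)
          (hdr w hw hw2) (hl v hvW) (hl w hw))⟩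
    · obtain ⟨x, z, hx, hz, hnx, hnz, hxz, huni⟩ := h2.edge
      obtain ⟨c, hc, c', hc', hcc⟩ := h2.some
      by_cases h3 : ∃ p ∈ W, p ∉ C ∧ ∀ w ∈ W, w ∉ C → ¬ Y.Adj p w
      · obtain ⟨p, hp, hpC, h4⟩ := h3
        exact ⟨p, hp, count_zero h4⟩
      · push Not at h3
        have h4 : ∀ p ∈ W, p ∉ C → p = x ∨ p = z := by
          intro p hp hpC
          obtain ⟨w, hw, hwC, hpw⟩ := h3 p hp hpC
          rcases huni p w hpC hwC (hdr p hp hpC) (hdr w hw hwC) hpw with h5 | h5
          · exact Or.inl h5.1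
          · exact Or.inr h5.1
        by_cases h5 : c ∈ W
        · refine ⟨c, h5, ?_⟩
          have h6 : W.filter (fun w => Y.Adj c w) ⊆ insert x (insert z ((C.erase c).erase c')) := by
            intro w hw
            rw [mem_filter] at hw
            rw [mem_insert, mem_insert, mem_erase, mem_erase]
            by_cases hwC : w ∈ C
            · refine Or.inr (Or.inr ⟨?_, hw.2.ne', hwC⟩)
              rintro rfl
              exact hd.disj _ _ hcc hw.2
            · rcases h4 w hw.1 hwC with h7 | h7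
              · exact Or.inl h7
              · exact Or.inr (Or.inl h7)
          refine (card_le_card h6).trans ((card_insert_le _ _).trans
            (Nat.succ_le_succ (card_insert_le _ _) |>.trans ?_))
          have h7 : c' ∈ C.erase c := mem_erase.2 ⟨hcc.ne', hc'⟩
          have h8 := card_pos.2 ⟨c', h7⟩
          rw [card_erase_of_mem h7]
          rw [card_erase_of_mem hc] at h8 ⊢
          omega
        · refine ⟨v, hvW, ?_⟩
          obtain ⟨w, hw, hwC, hvw⟩ := h3 v hvW hvC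
          have h6 : W.filter (fun w => Y.Adj v w) ⊆ insert w (C.erase c) := by
            intro q hq
            rw [mem_filter] at hq
            rw [mem_insert, mem_erase]
            by_cases hqC : q ∈ C
            · refine Or.inr ⟨?_, hqC⟩
              rintro rfl
              exact h5 hq.1
            · left
              rcases huni v w hvC hwC (hdr v hvW hvC) (hdr w hw hwC) hvw with h7 | h7 <;>
                rcases huni v q hvC hqC (hdr v hvW hvC) (hdr q hq.1 hqC) hq.2 with h8 | h8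
              · rw [h8.2, h7.2]
              · exact absurd (h7.1 ▸ h8.1 : x = z) (fun h => hxz.ne h)
              · exact absurd (h8.1 ▸ h7.1 : x = z) (fun h => hxz.ne h)
              · rw [h8.2, h7.2]
          refine (card_le_card h6).trans ((card_insert_le _ _).trans ?_)
          rw [card_erase_of_mem hc]
          have := card_pos.2 ⟨c, hc⟩
          omega

/-- all vertices are reached from a set that contains the hubs -/
theorem percol [Fintype V] (hd : Core C U Y) {S : Finset V} (hC : C ⊆ S) (hS : S ≠ univ) :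
    ∃ v, v ∉ S ∧ ∃ F : Finset V, F ⊆ S ∧ (∀ w ∈ F, U.Adj v w ∨ Y.Adj v w) ∧ C.card ≤ F.card := by
  by_cases h : ∃ v, v ∉ S ∧ ¬ hn C U Y v
  · obtain ⟨v, hv, hn⟩ := h
    refine ⟨v, hv, C, hC, fun c hc => ?_, le_rfl⟩
    by_contra h1
    push Not at h1
    exact hn ⟨c, hc, h1.1, h1.2⟩
  · push Not at h
    obtain ⟨x, hx, z, hz, hzC, hxz⟩ := hd.leave Sᶜ (by
      rw [nonempty_iff_ne_empty]
      intro h1
      exact hS (compl_eq_empty_iff S |>.1 h1)) (fun x hx => by
        rw [mem_compl] at hx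
        exact ⟨fun h1 => hx (hC h1), h x hx⟩)
    rw [mem_compl] at hx
    rw [mem_compl, not_not] at hz
    have hxC : x ∉ C := fun h1 => hx (hC h1)
    obtain ⟨c, hc, h1, h2⟩ := h x hx
    refine ⟨x, hx, insert z (C.erase c), ?_, ?_, ?_⟩
    · intro w hw
      rw [mem_insert, mem_erase] at hw
      rcases hw with rfl | ⟨hwc, hwC⟩
      · exact hz
      · exact hC hwC
    · intro w hw
      rw [mem_insert, mem_erase] at hw
      rcases hw with rfl | ⟨hwc, hwC⟩
      · exact Or.inr hxz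
      · by_contra h4
        push Not at h4
        exact hwc (hd.one x hxC w hwC c hc h4.1 h4.2 h1 h2)
    · rw [card_insert_of_notMem (fun h4 => hzC (mem_of_mem_erase h4)), card_erase_of_mem hc]
      have := card_pos.2 ⟨c, hc⟩
      omega

theorem mk_clique {x z : V} (hhub : ∀ c ∈ C, ∀ c' ∈ C, c ≠ c' → U.Adj c c' ∨ Y.Adj c c')
    (hx : x ∉ C) (hz : z ∉ C) (hnx : ¬ hn C U Y x) (hnz : ¬ hn C U Y z)
    (hxz : U.Adj x z ∨ Y.Adj x z) :
    ∃ S : Finset V, C ⊆ S ∧ S.card = C.card + 2 ∧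
      ∀ a ∈ S, ∀ b ∈ S, a ≠ b → U.Adj a b ∨ Y.Adj a b := by
  have hne : x ≠ z := by
    rcases hxz with h | h
    · exact h.ne
    · exact h.ne
  have h1 : ∀ y, ¬ hn C U Y y → ∀ c ∈ C, U.Adj y c ∨ Y.Adj y c := by
    intro y hy c hc
    by_contra h
    push Not at h
    exact hy ⟨c, hc, h.1, h.2⟩
  have hsym : ∀ p q, (U.Adj p q ∨ Y.Adj p q) → (U.Adj q p ∨ Y.Adj q p) := by
    rintro p q (h | h)
    · exact Or.inl h.symm
    · exact Or.inr h.symm
  refine ⟨insert x (insert z C), ?_, ?_, ?_⟩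
  · intro c hc
    exact mem_insert_of_mem (mem_insert_of_mem hc)
  · rw [card_insert_of_notMem, card_insert_of_notMem hz]
    rw [mem_insert]
    rintro (h | h)
    · exact hne h
    · exact hx h
  · intro a ha b hb hab
    rw [mem_insert, mem_insert] at ha hb
    rcases ha with rfl | rfl | ha <;> rcases hb with rfl | rfl | hb
    · exact absurd rfl hab
    · exact hxz
    · exact h1 _ hnx b hb
    · exact hsym _ _ hxz
    · exact absurd rfl hab
    · exact h1 _ hnz b hb
    · exact hsym _ _ (h1 _ hnx a ha)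
    · exact hsym _ _ (h1 _ hnz a ha)
    · exact hhub a ha b hb hab

theorem Inv.clique (h : Inv C U Y) :
    ∃ S : Finset V, C ⊆ S ∧ S.card = C.card + 2 ∧
      ∀ a ∈ S, ∀ b ∈ S, a ≠ b → U.Adj a b ∨ Y.Adj a b := by
  obtain ⟨hd, h⟩ := h
  rcases h with ⟨hR, L, hL⟩ | h2
  · obtain ⟨x, hx, z, hxz⟩ := hR
    by_cases h1 : ex C U x
    · have hz : z ∈ C := by
        by_contra hz
        exact h1 z hz hxz
      have hux : hu C U x := ⟨z, hz, hxz⟩
      have hnx : ¬ hn C U Y x := fun h => (hd.drop x hx h).2 hux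
      by_cases hxL : x ∈ L
      · obtain ⟨-, -, -, -, w, h8, -, h10, h11, -⟩ := hL.l1 x hxL
        exact mk_clique hd.hub hx h8 hnx h10 (Or.inr h11)
      · obtain ⟨w, hw, h8⟩ := hL.l3 x hx hnx hxL h1 hux
        obtain ⟨h9, h10, -⟩ := hL.l1 w hw
        exact mk_clique hd.hub hx h9 hnx h10 (Or.inr h8)
    · unfold ex at h1
      push Not at h1
      obtain ⟨w, hw, h2⟩ := h1
      exact mk_clique hd.hub hx hw (not_hn hd hx hw h2) (not_hn hd hw hx h2.symm) (Or.inl h2)
  · obtain ⟨x, z, hx, hz, hnx, hnz, hxz, -⟩ := h2.edge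
    exact mk_clique hd.hub hx hz hnx hnz (Or.inr hxz)

theorem start {x z : V} (hx : x ∉ C) (hz : z ∉ C) (hxz : x ≠ z) :
    Inv C (⊤ : SimpleGraph V) ⊥ := by
  have h0 : ∀ y, y ∉ C → ¬ hn C (⊤ : SimpleGraph V) ⊥ y := by
    rintro y hy ⟨c, hc, h, -⟩
    rw [SimpleGraph.top_adj, not_not] at h
    exact hy (h ▸ hc)
  refine ⟨⟨fun _ _ _ h => h, fun c _ c' _ h => Or.inl h, fun y hy h => absurd h (h0 y hy), ?_, ?_,
    ?_⟩, Or.inl ⟨⟨x, hx, z, hxz⟩, ∅, ?_, ?_, ?_⟩⟩
  · rintro W hW ⟨y, hy, h⟩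
    exact absurd h (h0 y (hW y hy))
  · intro y hy c hc _ _ h _ _ _
    rw [SimpleGraph.top_adj, not_not] at h
    exact absurd (h ▸ hc) hy
  · intro W hW h
    obtain ⟨y, hy⟩ := hW
    exact absurd (h y hy).2 (h0 y (h y hy).1)
  · intro y hy
    exact absurd hy (Set.notMem_empty y)
  · intro _ _ _ _ _ _ _ _ h
    exact h
  · intro y hy _ _ h _
    by_cases hyx : y = x
    · exact absurd (hyx ▸ hxz : y ≠ z) (fun h1 => h z hz h1)
    · exact absurd hyx (fun h1 => h x hx h1)

theorem NE.nonempty {E : Type} [DecidableEq E] {A : Finset E} {D : Finset E → Prop}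
    (h : NE A D) : A.Nonempty := by
  cases h with
  | const _ _ hA _ => exact hA
  | node _ _ x hx _ _ => exact ⟨x, hx⟩

theorem RR_iff {V : Type} [DecidableEq V] (S : Finset (EV V)) (a b : V) :
    (toG S).Adj a b ↔ ∃ h : ¬ (s(a, b)).IsDiag, (⟨s(a, b), h⟩ : EV V) ∈ S := by
  rw [← SimpleGraph.mem_edgeSet, t3_mem_toG]

/-- no decision tree wins against the strategy -/
theorem no_tree {V : Type} [Fintype V] [DecidableEq V] (C : Finset V) (P : SimpleGraph V → Prop)
    (h1 : ∀ U Y : SimpleGraph V, Inv C U Y → P (U ⊔ Y))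
    (h2 : ∀ U Y : SimpleGraph V, Inv C U Y → ¬ P Y)
    (A : Finset (EV V)) (D : Finset (EV V) → Prop) (hNE : NE A D) :
    ∀ B : Finset (EV V), Inv C (toG A) (toG B) → (∀ S, S ⊆ A → (D S ↔ ¬ P (toG (S ∪ B)))) →
      False := by
  induction hNE with
  | const A D hA h =>
    intro B hI hD
    have h3 : ¬ P (toG B) := h2 _ _ hI
    have h4 : P (toG (A ∪ B)) := by
      have h5 : toG (A ∪ B) = toG A ⊔ toG B := by
        ext p q
        rw [SimpleGraph.sup_adj, RR_iff, RR_iff, RR_iff]
        constructor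
        · rintro ⟨h7, h8⟩
          rcases mem_union.1 h8 with h8 | h8
          · exact Or.inl ⟨h7, h8⟩
          · exact Or.inr ⟨h7, h8⟩
        · rintro (⟨h7, h8⟩ | ⟨h7, h8⟩)
          · exact ⟨h7, mem_union_left _ h8⟩
          · exact ⟨h7, mem_union_right _ h8⟩
      rw [h5]
      exact h1 _ _ hI
    have h5 : D ∅ := (hD ∅ (empty_subset _)).2 (by rwa [empty_union])
    have h6 : ¬ D A := fun h7 => (hD A subset_rfl).1 h7 h4
    rcases h with h | h
    · exact h6 (h A subset_rfl)
    · exact h ∅ (empty_subset _) h5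
  | node A D x hx h0 h1' ih0 ih1 =>
    intro B hI hD
    obtain ⟨a, b, hxe⟩ : ∃ a b, x.1 = s(a, b) := by
      obtain ⟨e, he⟩ := x
      induction e using Sym2.ind with
      | _ a b => exact ⟨a, b, rfl⟩
    have he : ¬ (s(a, b)).IsDiag := hxe ▸ x.2
    have hxx : ∀ y : EV V, y = x ↔ y.1 = s(a, b) := by
      intro y
      rw [← hxe]
      exact ⟨fun h => by rw [h], fun h => Subtype.ext h⟩
    have hab : (toG A).Adj a b := by
      rw [RR_iff]
      refine ⟨he, ?_⟩
      have h3 : (⟨s(a, b), he⟩ : EV V) = x := (hxx _).2 rfl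
      rw [h3]
      exact hx
    have hU : Del (toG A) (toG (A.erase x)) a b := by
      intro p q
      rw [RR_iff, RR_iff]
      constructor
      · rintro ⟨h3, h4⟩
        rw [mem_erase] at h4
        refine ⟨⟨h3, h4.2⟩, fun h5 => h4.1 ?_⟩
        rw [hxx]
        exact Sym2.eq_iff.2 h5
      · rintro ⟨⟨h3, h4⟩, h5⟩
        refine ⟨h3, mem_erase.2 ⟨fun h6 => h5 ?_, h4⟩⟩
        rw [hxx] at h6
        exact Sym2.eq_iff.1 h6
    have hY : Ins (toG B) (toG (insert x B)) a b := by
      intro p q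
      rw [RR_iff, RR_iff]
      constructor
      · rintro ⟨h3, h4⟩
        rw [mem_insert] at h4
        rcases h4 with h4 | h4
        · right
          rw [hxx] at h4
          exact Sym2.eq_iff.1 h4
        · exact Or.inl ⟨h3, h4⟩
      · rintro (⟨h3, h4⟩ | h4)
        · exact ⟨h3, mem_insert_of_mem h4⟩
        · have h5 : s(p, q) = s(a, b) := Sym2.eq_iff.2 h4
          refine ⟨h5 ▸ he, mem_insert.2 (Or.inl ?_)⟩
          rw [hxx]
          exact h5
    have hne : ∃ p q, (toG (A.erase x)).Adj p q := by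
      obtain ⟨f, hfm⟩ := NE.nonempty h0
      obtain ⟨p, q, hf⟩ : ∃ p q, f.1 = s(p, q) := by
        obtain ⟨e, he⟩ := f
        induction e using Sym2.ind with
        | _ a b => exact ⟨a, b, rfl⟩
      refine ⟨p, q, (RR_iff _ p q).2 ⟨hf ▸ f.2, ?_⟩⟩
      have h3 : (⟨s(p, q), hf ▸ f.2⟩ : EV V) = f := Subtype.ext hf.symm
      rw [h3]
      exact hfm
    rcases step hI hab hU hY hne with h3 | h3
    · refine ih0 B h3 (fun S hS => ?_)
      have h4 : S ⊆ A := by
        intro y hy
        exact mem_of_mem_erase (hS hy)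
      exact hD S h4
    · refine ih1 (insert x B) h3 (fun S hS => ?_)
      have h4 : insert x S ⊆ A := by
        intro y hy
        rcases mem_insert.1 hy with h5 | h5
        · rw [h5]
          exact hx
        · exact mem_of_mem_erase (hS h5)
      have h5 := hD _ h4
      rw [insert_union, ← union_insert] at h5
      exact h5

open Classical in
/-- **The sandwich theorem.** `P` contains every graph in which all vertices are reached from some
complete subgraph on `r` vertices by successively adding vertices with at least `r - 2` neighbours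
in the current set, and every graph with `P` has a subgraph of minimum degree at least `r - 1`. -/
theorem main (n r : ℕ) (hr : 2 ≤ r) (hrn : r ≤ n) (P : SimpleGraph (Fin n) → Prop)
    (h1 : ∀ G : SimpleGraph (Fin n), (∃ K : Finset (Fin n), G.IsNClique r K ∧
      ∀ S : Finset (Fin n), K ⊆ S → S ≠ univ →
        ∃ v, v ∉ S ∧ r ≤ (S.filter (fun w => G.Adj v w)).card + 2) → P G)
    (h2 : ∀ G : SimpleGraph (Fin n), P G → ∃ W : Finset (Fin n), W.Nonempty ∧
      ∀ v ∈ W, r ≤ (W.filter (fun w => G.Adj v w)).card + 1)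
    (s : Finset (Sym2 (Fin n)) → SimpleGraph (Fin n) → Sym2 (Fin n))
    (hs : ∀ (Q : Finset (Sym2 (Fin n))) (G H : SimpleGraph (Fin n)),
      (∀ e ∈ Q, (e ∈ G.edgeSet ↔ e ∈ H.edgeSet)) → s Q G = s Q H) :
    ∃ G H : SimpleGraph (Fin n),
      (∀ e ∈ (fun Q : Finset (Sym2 (Fin n)) => insert (s Q G) Q)^[n.choose 2 - 1]
        (∅ : Finset (Sym2 (Fin n))), (e ∈ G.edgeSet ↔ e ∈ H.edgeSet)) ∧ P G ∧ ¬ P H := by
  by_contra hbad
  have hNE := ne_of_strategy n (by omega) P s hs hbad
  set C : Finset (Fin n) := univ.filter (fun i => (i : ℕ) < r - 2) with hC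
  have hCc : C.card = r - 2 := by
    have hle : r - 2 ≤ n := by omega
    have h3 : C = (univ : Finset (Fin (r - 2))).map (Fin.castLEEmb hle) := by
      ext i
      rw [hC, mem_filter, mem_map]
      constructor
      · intro h
        exact ⟨⟨i, h.2⟩, mem_univ _, Fin.ext rfl⟩
      · rintro ⟨j, -, h⟩
        refine ⟨mem_univ _, ?_⟩
        rw [← h]
        exact j.2
    rw [h3, card_map, card_univ, Fintype.card_fin]
  have hx : (⟨r - 2, by omega⟩ : Fin n) ∉ C := by
    rw [hC, mem_filter]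
    rintro ⟨-, h⟩
    exact absurd h (lt_irrefl _)
  have hz : (⟨r - 1, by omega⟩ : Fin n) ∉ C := by
    rw [hC, mem_filter]
    rintro ⟨-, h⟩
    change r - 1 < r - 2 at h
    omega
  refine no_tree C P ?_ ?_ univ _ hNE ∅ ?_ ?_
  · intro U Y hI
    apply h1
    obtain ⟨K, hCK, hK, h3⟩ := hI.clique
    refine ⟨K, ?_, ?_⟩
    · rw [SimpleGraph.isNClique_iff]
      refine ⟨fun a ha b hb hab => h3 a ha b hb hab, ?_⟩
      rw [hK, hCc]
      omega
    · intro S hKS hS
      obtain ⟨v, hv, F, hF, h4, h5⟩ := percol hI.1 (hCK.trans hKS) hS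
      refine ⟨v, hv, ?_⟩
      rw [hCc] at h5
      have h6 : r ≤ F.card + 2 := by omega
      refine h6.trans (Nat.add_le_add_right (card_le_card fun w hw => ?_) 2)
      refine (@Finset.mem_filter _ _ (_) _ _).2 ⟨hF hw, ?_⟩
      rw [SimpleGraph.sup_adj]
      exact h4 w hw
  · intro U G hI hPG
    obtain ⟨W, hW, h3⟩ := h2 G hPG
    obtain ⟨v, hv, h4⟩ := hI.degen W hW
    have h5 := h3 v hv
    rw [hCc] at h4
    omega
  · have h3 : toG (univ : Finset (EV (Fin n))) = ⊤ := by
      ext p q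
      rw [RR_iff, SimpleGraph.top_adj]
      constructor
      · rintro ⟨h, -⟩ rfl
        exact h (Sym2.mk_isDiag_iff.2 rfl)
      · intro h
        exact ⟨fun h4 => h (Sym2.mk_isDiag_iff.1 h4), mem_univ _⟩
    have h4 : toG (∅ : Finset (EV (Fin n))) = ⊥ := by
      ext p q
      rw [RR_iff]
      constructor
      · rintro ⟨_, h⟩
        exact absurd h (notMem_empty _)
      · intro h
        exact absurd h (by simp)
    rw [h3, h4]
    refine start hx hz ?_
    intro h
    rw [Fin.mk.injEq] at h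
    omega
  · intro S _
    rw [union_empty]

end Pool.Agent.Y577.KD
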