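import Pool.Agent.Y577.KD.Inv

set_option autoImplicit false
set_option linter.unusedSectionVars false
set_option linter.unusedVariables false

/-! The steps of the adversary strategy. -/

namespace Pool.Agent.Y577.KD

variable {V : Type} [DecidableEq V]
variable {C : Finset V} {U Y U' Y' : SimpleGraph V} {a b : V}

/-- for a pair outside the hubs the pairs with hubs do not change -/
theorem out_hub (ha : a ∉ C) (hb : b ∉ C) (hU : Del U U' a b) {x c : V} (hc : c ∈ C) :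
    U'.Adj x c ↔ U.Adj x c := by
  rw [hU]
  refine ⟨fun h => h.1, fun h => ⟨h, ?_⟩⟩
  rintro (⟨-, rfl⟩ | ⟨-, rfl⟩)
  · exact hb hc
  · exact ha hc

theorem out_hu (ha : a ∉ C) (hb : b ∉ C) (hU : Del U U' a b) (x : V) :
    hu C U' x ↔ hu C U x := by
  constructor
  · rintro ⟨c, hc, h⟩
    exact ⟨c, hc, (out_hub ha hb hU hc).1 h⟩
  · rintro ⟨c, hc, h⟩
    exact ⟨c, hc, (out_hub ha hb hU hc).2 h⟩

theorem out_hn (ha : a ∉ C) (hb : b ∉ C) (hU : Del U U' a b) (x : V) :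
    hn C U' Y x ↔ hn C U Y x := by
  constructor
  · rintro ⟨c, hc, h, h2⟩
    exact ⟨c, hc, fun h3 => h ((out_hub ha hb hU hc).2 h3), h2⟩
  · rintro ⟨c, hc, h, h2⟩
    exact ⟨c, hc, fun h3 => h ((out_hub ha hb hU hc).1 h3), h2⟩

theorem core_no (hd : Core C U Y) (ha : a ∉ C) (hb : b ∉ C) (hU : Del U U' a b) :
    Core C U' Y := by
  refine ⟨fun p q h => hd.disj p q ((hU p q).1 h).1, ?_, ?_, ?_, ?_, ?_⟩
  · intro c hc c' hc' hne
    rw [out_hub ha hb hU hc']
    exact hd.hub c hc c' hc' hne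
  · intro x hx h1
    rw [out_hn ha hb hU] at h1
    obtain ⟨h2, h3⟩ := hd.drop x hx h1
    exact ⟨hU.ex h2, hU.hu h3⟩
  · intro W hW hex
    simp only [out_hn ha hb hU] at hex ⊢
    exact hd.peel W hW hex
  · intro x hx c hc c' hc' h1 h2 h3 h4
    rw [out_hub ha hb hU hc] at h1
    rw [out_hub ha hb hU hc'] at h3
    exact hd.one x hx c hc c' hc' h1 h2 h3 h4
  · intro W hW h1
    simp only [out_hn ha hb hU] at h1
    exact hd.leave W hW h1

/-- a vertex with an unqueried pair outside the hubs is not dropped -/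
theorem not_hn (hd : Core C U Y) (ha : a ∉ C) (hb : b ∉ C) (hab : U.Adj a b) :
    ¬ hn C U Y a := fun h => (hd.drop a ha h).1 b hb hab

/-- case 2, positive answer: `a` needs a partner -/
theorem step_need {L : Set V} (hd : Core C U Y) (hL : Leaf C U Y L) (hab : U.Adj a b)
    (ha : a ∉ C) (hb : b ∉ C) (hU : Del U U' a b) (hY : Ins Y Y' a b)
    (h1 : ex C U' a) (h2 : hu C U a) (h3 : ∀ w ∈ L, ¬ Y.Adj a w) :
    Leaf C U' Y' (insert a L) := by
  have hn' := hn_yes hd hab hU hY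
  have hhu := out_hu ha hb hU
  have haL : a ∉ L := fun h => (hL.l1 a h).2.2.1 b hb hab
  have hbL : b ∉ L := fun h => (hL.l1 b h).2.2.1 a ha hab.symm
  have hab' : a ≠ b := hab.ne
  have hna : ¬ hn C U Y a := not_hn hd ha hb hab
  have hnb : ¬ hn C U Y b := not_hn hd hb ha hab.symm
  have hYx : ∀ x z, x ≠ a → x ≠ b → (Y'.Adj x z ↔ Y.Adj x z) := by
    intro x z hxa hxb
    rw [hY]
    refine ⟨fun h => ?_, fun h => Or.inl h⟩
    rcases h with h | ⟨h, -⟩ | ⟨h, -⟩
    · exact h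
    · exact absurd h hxa
    · exact absurd h hxb
  refine ⟨?_, ?_, ?_⟩
  · intro x hx
    rcases hx with rfl | hx
    · refine ⟨ha, by rwa [hn'], h1, (hhu _).2 h2, b, hb, ?_, by rwa [hn'],
        (hY _ _).2 (Or.inr (Or.inl ⟨rfl, rfl⟩)), ?_⟩
      · rintro (h | h)
        · exact hab' h.symm
        · exact hbL h
      · intro w hw hw2 hw3
        rw [hn'] at hw2
        rcases (hY _ _).1 hw3 with h4 | ⟨-, h4⟩ | ⟨h4, -⟩
        · exfalso
          by_cases hwL : w ∈ L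
          · exact h3 w hwL h4
          · exact hL.l2 _ _ ha hw hna hw2 haL hwL h4
        · exact h4
        · exact absurd h4 hab'
    · obtain ⟨h4, h5, h6, h7, z, h8, h9, h10, h11, h12⟩ := hL.l1 x hx
      have hxa : x ≠ a := fun h => haL (h ▸ hx)
      have hxb : x ≠ b := fun h => hbL (h ▸ hx)
      refine ⟨h4, by rwa [hn'], hU.ex h6, (hhu _).2 h7, z, h8, ?_, by rwa [hn'],
        (hYx x z hxa hxb).2 h11, ?_⟩
      · rintro (h | h)
        · rw [h] at h11
          exact h3 x hx h11.symm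
        · exact h9 h
      · intro w hw hw2 hw3
        rw [hn'] at hw2
        exact h12 w hw hw2 ((hYx x w hxa hxb).1 hw3)
  · intro x z hx hz h4 h5 h6 h7 h8
    rw [hn'] at h4 h5
    rcases (hY _ _).1 h8 with h9 | ⟨h9, -⟩ | ⟨-, h9⟩
    · exact hL.l2 x z hx hz h4 h5 (fun h => h6 (Or.inr h)) (fun h => h7 (Or.inr h)) h9
    · exact h6 (Or.inl h9)
    · exact h7 (Or.inl h9)
  · intro x hx h4 h5 h6 h7
    rw [hn'] at h4
    rw [hhu] at h7
    by_cases hxb : x = b
    · exact ⟨a, Or.inl rfl, (hY _ _).2 (Or.inr (Or.inr ⟨hxb, rfl⟩))⟩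
    · have hxa : x ≠ a := fun h => h5 (Or.inl h)
      obtain ⟨z, hz, h8⟩ := hL.l3 x hx h4 (fun h => h5 (Or.inr h))
        ((hU.ex_iff hxa hxb).1 h6) h7
      exact ⟨z, Or.inr hz, (hYx x z hxa hxb).2 h8⟩

/-- case 2, negative answer -/
theorem step_out_no {L : Set V} (hd : Core C U Y) (hL : Leaf C U Y L) (hab : U.Adj a b)
    (ha : a ∉ C) (hb : b ∉ C) (hU : Del U U' a b)
    (h1 : ex C U' a → hu C U a → ∃ w ∈ L, Y.Adj a w)
    (h2 : ex C U' b → hu C U b → ∃ w ∈ L, Y.Adj b w) :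
    Leaf C U' Y L := by
  have hn' := fun x => out_hn (Y := Y) ha hb hU x
  have hhu := out_hu ha hb hU
  refine ⟨?_, ?_, ?_⟩
  · intro x hx
    obtain ⟨h4, h5, h6, h7, z, h8, h9, h10, h11, h12⟩ := hL.l1 x hx
    refine ⟨h4, by rwa [hn'], hU.ex h6, (hhu _).2 h7, z, h8, h9, by rwa [hn'], h11, ?_⟩
    intro w hw hw2 hw3
    rw [hn'] at hw2
    exact h12 w hw hw2 hw3
  · intro x z hx hz h4 h5 h6 h7 h8
    rw [hn'] at h4 h5
    exact hL.l2 x z hx hz h4 h5 h6 h7 h8
  · intro x hx h4 h5 h6 h7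
    rw [hn'] at h4
    rw [hhu] at h7
    by_cases hxa : x = a
    · subst hxa
      exact h1 h6 h7
    · by_cases hxb : x = b
      · subst hxb
        exact h2 h6 h7
      · exact hL.l3 x hx h4 h5 ((hU.ex_iff hxa hxb).1 h6) h7

/-- case 2: a pair outside the hubs -/
theorem step_out (h : Inv C U Y) (hab : U.Adj a b) (ha : a ∉ C) (hb : b ∉ C)
    (hU : Del U U' a b) (hY : Ins Y Y' a b) (hne : ∃ p q, U'.Adj p q) :
    Inv C U' Y ∨ Inv C U' Y' := by
  classical
  obtain ⟨hd, h⟩ := h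
  rcases h with ⟨hR, L, hL⟩ | h2
  swap
  · exact absurd ⟨a, ha, b, hab⟩ h2.all
  by_cases hR' : Rem C U'
  · by_cases hna : ex C U' a ∧ hu C U a ∧ ∀ w ∈ L, ¬ Y.Adj a w
    · right
      exact ⟨core_yes hd hab hU hY, Or.inl ⟨hR', _,
        step_need hd hL hab ha hb hU hY hna.1 hna.2.1 hna.2.2⟩⟩
    · by_cases hnb : ex C U' b ∧ hu C U b ∧ ∀ w ∈ L, ¬ Y.Adj b w
      · right
        exact ⟨core_yes hd hab hU hY, Or.inl ⟨hR', _,
          step_need hd hL hab.symm hb ha hU.symm hY.symm hnb.1 hnb.2.1 hnb.2.2⟩⟩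
      · left
        refine ⟨core_no hd ha hb hU, Or.inl ⟨hR', L, step_out_no hd hL hab ha hb hU ?_ ?_⟩⟩
        · intro h3 h4
          by_contra h5
          push Not at h5
          exact hna ⟨h3, h4, h5⟩
        · intro h3 h4
          by_contra h5
          push Not at h5
          exact hnb ⟨h3, h4, h5⟩
  · right
    have hn' := hn_yes hd hab hU hY
    refine ⟨core_yes hd hab hU hY, Or.inr ⟨hR', ?_, ?_⟩⟩
    · have hnL : ∀ x, x ∉ L := by
        intro x hx
        obtain ⟨h4, -, -, ⟨c, hc, h7⟩, -⟩ := hL.l1 x hx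
        exact hR' ⟨x, h4, c, (out_hub ha hb hU hc).2 h7⟩
      refine ⟨a, b, ha, hb, ?_, ?_, (hY _ _).2 (Or.inr (Or.inl ⟨rfl, rfl⟩)), ?_⟩
      · rw [hn']
        exact not_hn hd ha hb hab
      · rw [hn']
        exact not_hn hd hb ha hab.symm
      · intro p q hp hq h4 h5 h6
        rw [hn'] at h4 h5
        rcases (hY _ _).1 h6 with h7 | h7
        · exact absurd h7 (hL.l2 p q hp hq h4 h5 (hnL p) (hnL q))
        · exact h7
    · obtain ⟨p, q, hpq⟩ := hne
      refine ⟨p, ?_, q, ?_, hpq⟩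
      · by_contra hp
        exact hR' ⟨p, hp, q, hpq⟩
      · by_contra hq
        exact hR' ⟨q, hq, p, hpq.symm⟩

end Pool.Agent.Y577.KD
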